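import Pool.Agent.Helper96.Kod.Defs4
import Pool.Agent.Helper96.Kod.Iit6

/-!
Pluricanonical forms along compact submanifolds, from `L^q` forms on arbitrary coverings without
compact submanifolds.
-/

open scoped Manifold ContDiff
open Pool.Agent.Helper16.Abund Pool.Agent.Helper96.Kod

namespace Pool.Agent.Helper10.Kept.AmpleCoverings

universe u

theorem result {n : ℕ} {X : Type u} [TopologicalSpace X] [T2Space X] [ChartedSpace (Fin n → ℂ) X]
    [IsManifold 𝓘(ℂ, Fin n → ℂ) ω X] :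
    (CompactSpace X → (∀ x : X, RigidLqAt n X x) → CanSemiample n X ∧ ContractsNothing n X) ∧
      ∀ {k : ℕ} {Y F : Type u} [TopologicalSpace Y] [ChartedSpace (Fin n → ℂ) Y]
        [TopologicalSpace F] [ConnectedSpace F] [ChartedSpace (Fin k → ℂ) F]
        [IsManifold 𝓘(ℂ, Fin k → ℂ) ω F] (p : Y → X) (φ : F → X) (x₀ : F) (y₀ : Y),
        HolCov n p → LqFormAt n p y₀ → Holo n k φ → φ x₀ = p y₀ →
        (PairOn n φ ∨ FiniteLift p φ x₀ y₀) ∧
          ((∃ x, φ x ≠ φ x₀) → (CompactSpace F ∧ T2Space F ∧ NoCompactMaps n Y) ∨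
            (OnlyConst k F ∧ HolSeparable n Y) → PairOn n φ) := by
  have hB : ∀ {k : ℕ} {Y F : Type u} [TopologicalSpace Y] [ChartedSpace (Fin n → ℂ) Y]
        [TopologicalSpace F] [ConnectedSpace F] [ChartedSpace (Fin k → ℂ) F]
        [IsManifold 𝓘(ℂ, Fin k → ℂ) ω F] (p : Y → X) (φ : F → X) (x₀ : F) (y₀ : Y),
        HolCov n p → LqFormAt n p y₀ → Holo n k φ → φ x₀ = p y₀ →
        (PairOn n φ ∨ FiniteLift p φ x₀ y₀) ∧
          ((∃ x, φ x ≠ φ x₀) → (CompactSpace F ∧ T2Space F ∧ NoCompactMaps n Y) ∨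
            (OnlyConst k F ∧ HolSeparable n Y) → PairOn n φ) := by
    intro k Y F _ _ _ _ _ _ p φ x₀ y₀ ⟨hcov, hloc⟩ ⟨m, q, η, hm, hq, ⟨hη, hLq⟩, hy⟩ hφ hxy
    have hmem : (x₀, y₀) ∈ {z : F × Y | φ z.1 = p z.2} := hxy
    let z₀ : FP φ p := ⟨(x₀, y₀), hmem⟩
    constructor
    · by_cases h : PairOn n φ
      · exact Or.inl h
      · refine Or.inr fun x => ?_
        have hfin := finite_fibre_of_not_pairOn hcov hloc hφ hm hq hη hLq (z₀ := z₀) hy h x
        refine (hfin.image fun z => z.1.2).subset ?_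
        intro y hxy
        rw [Set.mem_ofPred_eq, connectedComponentIn_eq_image hmem] at hxy
        obtain ⟨z, hz, hz'⟩ := hxy
        exact ⟨z, ⟨hz, congrArg Prod.fst hz'⟩, congrArg Prod.snd hz'⟩
    · rintro ⟨x, hx⟩ hcases
      by_contra h
      apply hx
      rcases hcases with ⟨h1, h2, h3⟩ | ⟨h1, h2⟩
      · exact const_of_noCompactMaps hcov hloc hφ
          (isCompact_component_of_not_pairOn hcov hloc hφ hm hq hη hLq (z₀ := z₀) hy h) h3 x x₀
      · exact const_of_separable' hcov hloc hφ (z₀ := z₀) (fun _ _ _ _ L =>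
          finite_sheets_of_not_pairOn hcov hloc hφ hm hq hη hLq (z₀ := z₀) hy h L) h1 h2 x x₀
  refine ⟨fun hc hX => ⟨?_, ?_⟩, hB⟩
  · apply canSemiample_of_pointwise
    intro x
    obtain ⟨Y, i1, i2, i3, p, y, ⟨hcov, hloc⟩, -, ⟨m, q, η, hm, hq, ⟨hη, hLq⟩, hy⟩, rfl⟩ := hX x
    exact exists_form_of_Lq hcov hloc hm hη hq hLq hy
  · intro k F _ _ _ _ _ _ φ hφ ⟨x, x', hne⟩
    obtain ⟨Y, i1, i2, i3, p, y, hp, hno, hy, hpy⟩ := hX (φ x')
    exact (hB p φ x' y hp hy hφ hpy.symm).2 ⟨x, hne⟩ (Or.inl ⟨inferInstance, inferInstance, hno⟩)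

end Pool.Agent.Helper10.Kept.AmpleCoverings
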