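import Pool.Agent.Helper96.Kod.Defs2
import Pool.Agent.Helper96.Kod.Cor
import Pool.Agent.Helper96.Ab.Main

/-!
Kodaira dimension from `L^q` pluricanonical forms on arbitrary coverings of the regular locus.
-/

open scoped Manifold ContDiff
open Pool.Agent.Helper16.Abund Pool.Agent.Helper96.Kod

namespace Pool.Agent.Helper10.Kept.KodairaRank

universe u

theorem result {n r : ℕ} {M : Type u} [TopologicalSpace M] [ChartedSpace (Fin n → ℂ) M]
    [IsManifold 𝓘(ℂ, Fin n → ℂ) ω M] :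
    (KodairaGE n r M ↔ LqForms n r M) ∧ (LqAndBounded n r M → KodairaGE n r M) ∧
      (DomainCovered n M → KodairaGE n n M) := by
  refine ⟨⟨?_, ?_⟩, ?_, ?_⟩
  · rintro ⟨ℓ, hℓ, c, hc, hx⟩
    exact ⟨M, inferInstance, inferInstance, inferInstance, id, ℓ, 1, c,
      ⟨Pool.Agent.Helper96.Ab.isCoveringMap_id', Pool.Agent.Helper96.Ab.isLocalDiffeomorph_id⟩, hℓ,
      one_pos, fun i => ⟨hc i, fibreLq_id (hc i)⟩, hx⟩
  · rintro ⟨Y, i1, i2, i3, p, m, q, η, ⟨hcov, hloc⟩, hm, hq, hη, hind⟩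
    exact kodaira_of_Lq hcov hloc hm hq (fun i => (hη i).1) (fun i => (hη i).2) hind
  · rintro ⟨Y, i1, i2, i3, p, m, q, η, f, y₀, ⟨hcov, hloc⟩, hm, hq, ⟨hη, hLq⟩, hy, hf, ⟨C, hC⟩,
      hs⟩
    exact kodaira_of_bounded hcov hloc hm hq hη hLq hf (C := max C 0) (fun y =>
      (pi_norm_le_iff_of_nonneg (le_max_right _ _)).2 fun i => (hC y i).trans (le_max_left _ _))
      hy hs
  · rintro ⟨W, p, hW, hne, hcov, hloc⟩
    exact kodaira_of_domain W hW hne hcov hloc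

end Pool.Agent.Helper10.Kept.KodairaRank
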