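import Pool.Agent.Helper96.Ab.Main
import Pool.Agent.Helper27.Sing.N
import Pool.Agent.Helper27.Sing.B
import Pool.Agent.Helper27.Sing.Transfer
import Pool.Agent.Helper98.Ab.F
import Pool.Agent.Helper59.Ab.PacketD
import Pool.Agent.Helper55.Ab.PacketG
import Pool.Agent.Helper3.Ab.A

/-!
Semiampleness of the canonical divisor of a compact normal complex space, through pluricanonical
forms on arbitrary coverings of its regular locus.
-/

open scoped Manifold ContDiff
open Pool.Agent.Helper96.Ab
open Pool.Agent.Helper27.SingPull (TransferAt massAt_of_transferAt transferAt_of_form)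

namespace Pool.Agent.Helper10.Kept.NormalCoverings

universe u

theorem result {n : ℕ} {X M : Type u} [TopologicalSpace X] [T2Space X] [CompactSpace X]
    [TopologicalSpace M] [SecondCountableTopology M] [ChartedSpace (Fin n → ℂ) M]
    [IsManifold 𝓘(ℂ, Fin n → ℂ) ω M] {j : M → X} (hN : IsNormalSpace n j) :
    (SemiampleK n j ↔ ∀ x, LqAt n j x) ∧
      ((∀ x, LqAt n j x ∨ MassAt n j x ∨ TransferAt n j x) → SemiampleK n j) ∧
      (IsLogTerminal n j → List.TFAE [SemiampleK n j, ∀ x, LqAt n j x, ∀ x, MassAt n j x,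
        ∀ x, TransferAt n j x]) := by
  have key := main stmtA Helper55.Ab.stmtG Helper27.Sing.stmtN stmtF Helper27.Sing.stmtB
    Helper59.Ab.stmtD n X M j hN
  refine ⟨key.1, ?_, ?_⟩
  · intro h
    apply key.1.2
    intro x
    rcases h x with h | h | h
    · exact h
    · exact lqAt_of_massAt h
    · exact lqAt_of_massAt (massAt_of_transferAt h)
  · intro hlt
    tfae_have 1 ↔ 2 := key.1
    tfae_have 1 ↔ 3 := key.2 hlt
    tfae_have 4 → 3 := fun h x => massAt_of_transferAt (h x)
    tfae_have 1 → 4 := by
      rintro ⟨m, hm, h⟩ x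
      obtain ⟨s, hs, hx⟩ := h x
      exact transferAt_of_form hN hlt hm hs (hN.nonzeroAt_id hm hs hx)
    tfae_finish

end Pool.Agent.Helper10.Kept.NormalCoverings
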