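import Pool.Agent.Helper97.Tns.Final

/-!
The canonical bundle of a compact complex manifold is semiample if and only if holomorphic tensor
fields of positive degree, twisted by powers of the canonical bundle, on arbitrary covering spaces,
in `L^q` over the manifold, are semistable at every point.
-/

open scoped Manifold ContDiff ENNReal
open Pool.Agent.Helper16.Abund Pool.Agent.Helper97.Tns

namespace Pool.Agent.Helper10.Kept.TensorCriterion

universe u

theorem result {n : ℕ} (hn : 0 < n) (X : Type u) [TopologicalSpace X] [T2Space X]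
    [ChartedSpace (Fin n → ℂ) X] [IsManifold 𝓘(ℂ, Fin n → ℂ) ω X] :
    (∀ x : X, List.TFAE [∃ m : ℕ, 1 ≤ m ∧ ∃ c : X → ℂ, IsPluriForm n X m c ∧ c x ≠ 0,
      TangentDetectedAt n X x, TensorSemistableAt n X x]) ∧
    (CompactSpace X → List.TFAE [CanSemiample n X, ∀ x : X, TangentDetectedAt n X x,
      ∀ x : X, TensorSemistableAt n X x]) :=
  ⟨t_pointwise hn X, fun _ => t_global hn X⟩

end Pool.Agent.Helper10.Kept.TensorCriterion
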